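import Pool.Agent.helper7.Ucode.Recursion

set_option autoImplicit false

/-!
# Good universal codes in free groups with words of linear length
-/

namespace Pool.Agent.Results.MP_6f9718_al.LinearUniversalCodes

open Pool.Agent.helper7.Ucode

theorem sat_subgroup {k : ℕ} (H : Subgroup (FreeGroup (Fin k))) :
    Sat (fun w : List (Fin k) => (w.map FreeGroup.of).prod ∈ H) where
  nil := by simp
  append := by
    intro u v hu hv
    rw [List.map_append, List.prod_append]
    exact H.mul_mem hu hv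
  left := by
    intro u v hu hv
    rw [List.map_append, List.prod_append] at hv
    exact (Subgroup.mul_mem_cancel_left H hu).1 hv
  right := by
    intro u v hv huv
    rw [List.map_append, List.prod_append] at huv
    exact (Subgroup.mul_mem_cancel_right H hv).1 huv

theorem norm_prod_le {k : ℕ} (w : List (Fin k)) :
    ((w.map FreeGroup.of).prod).norm ≤ w.length := by
  induction w with
  | nil => simp
  | cons a w ih =>
    rw [List.map_cons, List.prod_cons, List.length_cons]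
    refine (FreeGroup.norm_mul_le _ _).trans ?_
    rw [FreeGroup.norm_of]
    omega

theorem exists_code (δ : ℝ) (hδ : δ < 1 / 2) : ∃ C : ℕ, ∀ k : ℕ, 1 ≤ k →
    Code (Fin k) 1 (C * k) (C * k) δ := by
  obtain ⟨ρ0, hρ0⟩ : ∃ ρ0 : ℕ, 147 * 60006 ≤ ρ0 := ⟨_, le_rfl⟩
  obtain ⟨s, hs⟩ := exists_nat_ge (7 / 5 * 6 / (1 - 2 * δ))
  rw [div_le_iff₀ (by linarith)] at hs
  have hL1 := Lam_le (show 60000 ≤ ρ0 by omega)
  have hL0 := Lam_nonneg ρ0
  refine ⟨2 * (2 ^ ρ0 + 1) * (2 ^ s + s), fun k hk => ?_⟩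
  have h1 : k ≤ 2 ^ Nat.clog 2 k := Nat.le_pow_clog (by norm_num) k
  have h2 : 2 ^ Nat.clog 2 k ≤ 2 * k := by
    rcases Nat.eq_or_lt_of_le hk with h | h
    · rw [← h]; simp
    · have h3 : 2 ^ (Nat.clog 2 k).pred < k := Nat.pow_pred_clog_lt_self (by norm_num) h
      have h4 : 0 < Nat.clog 2 k := Nat.clog_pos (by norm_num) h
      obtain ⟨j, hj⟩ := Nat.exists_eq_succ_of_ne_zero h4.ne'
      rw [hj, Nat.pred_succ] at h3
      rw [hj, pow_succ]
      omega
  set e := Nat.clog 2 k with he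
  have : Nonempty (Fin k) := ⟨⟨0, hk⟩⟩
  obtain ⟨n, ℓ, hn, hℓ, hc⟩ := recursion ρ0 hρ0 e ρ0 le_rfl (Fin k) inferInstance inferInstance
    1 1 le_rfl le_rfl (by
      have h3 := Real.add_one_le_exp (-(4 * Lam ρ0 e))
      have h4 := hL1 e
      linarith) (by
      rw [Fintype.card_fin, one_mul, mul_one]
      exact_mod_cast h1)
  have h2' : (2 : ℝ) ^ e ≤ 2 * k := by exact_mod_cast h2
  have hn' : n ≤ 2 * (2 ^ ρ0 + 1) * k := by
    have h3 : (n : ℝ) ≤ (2 * (2 ^ ρ0 + 1)) * k := by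
      refine hn.trans ?_
      rw [one_mul, mul_one]
      have h4 : (0 : ℝ) ≤ 2 ^ ρ0 := by positivity
      have h5 : (2 : ℝ) ^ ρ0 * 2 ^ e ≤ 2 ^ ρ0 * (2 * k) := mul_le_mul_of_nonneg_left h2' h4
      have h6 : (0 : ℝ) ≤ k := Nat.cast_nonneg k
      nlinarith
    exact_mod_cast h3
  have hℓ' : ℓ ≤ 2 * (2 ^ ρ0 + 1) * k := by
    have h3 : (ℓ : ℝ) ≤ (2 * (2 ^ ρ0 + 1)) * k := by
      refine hℓ.trans ?_
      have h4 : (0 : ℝ) ≤ 2 ^ ρ0 + Lam ρ0 e := by
        have := hL0 e
        positivity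
      have h5 : ((2 : ℝ) ^ ρ0 + Lam ρ0 e) * 2 ^ e ≤ (2 ^ ρ0 + Lam ρ0 e) * (2 * k) :=
        mul_le_mul_of_nonneg_left h2' h4
      have h6 : (0 : ℝ) ≤ k := Nat.cast_nonneg k
      have h7 := hL1 e
      have h8 : ((2 : ℝ) ^ ρ0 + Lam ρ0 e) * (2 * k) ≤ (2 ^ ρ0 + 1) * (2 * k) := by
        refine mul_le_mul_of_nonneg_right ?_ (by positivity)
        linarith
      linarith
    exact_mod_cast h3
  have hc' : Code (Fin k) 1 (2 * (2 ^ ρ0 + 1) * k) (2 * (2 ^ ρ0 + 1) * k) (1 / 6) := by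
    refine hc.mono le_rfl hn' hℓ' ?_
    have := hL1 e
    linarith
  have h9 := hc'.amp 6 (1 - 2 * δ) s (by norm_num) (by linarith)
  refine h9.mono le_rfl ?_ ?_ (le_of_eq (by ring))
  · calc 2 * (2 ^ ρ0 + 1) * k * 2 ^ s = 2 * (2 ^ ρ0 + 1) * 2 ^ s * k := by ring
      _ ≤ _ := by gcongr; exact Nat.le_add_right _ _
  · calc 2 * (2 ^ ρ0 + 1) * k * s = 2 * (2 ^ ρ0 + 1) * s * k := by ring
      _ ≤ _ := by gcongr; exact Nat.le_add_left _ _

/-- For every `δ < 1 / 2` there are test tuples `A k` in the free groups of rank `k`, of at most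
`C * k` words of length at most `C * k`, such that every proper subgroup misses at least a
fraction `δ` of the members of `A k`. -/
theorem result (δ : ℝ) (hδ : δ < 1 / 2) :
    ∃ (C : ℕ) (n : ℕ → ℕ) (A : ∀ k : ℕ, Fin (n k) → FreeGroup (Fin k)), ∀ k : ℕ, 1 ≤ k →
      0 < n k ∧ n k ≤ C * k ∧
      (∀ i, (A k i).norm ≤ C * k) ∧
      (∀ i, A k i ∈ Submonoid.closure (Set.range (FreeGroup.of : Fin k → FreeGroup (Fin k)))) ∧
      ∀ H : Subgroup (FreeGroup (Fin k)), H ≠ ⊤ →
        δ * (n k : ℝ) ≤ (Nat.card {i : Fin (n k) // A k i ∉ H} : ℝ) := by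
  obtain ⟨C, hC⟩ := exists_code δ hδ
  have key : ∀ k : ℕ, ∃ (m : ℕ) (A : Fin m → FreeGroup (Fin k)), 1 ≤ k →
      0 < m ∧ m ≤ C * k ∧ (∀ i, (A i).norm ≤ C * k) ∧
      (∀ i, A i ∈ Submonoid.closure (Set.range (FreeGroup.of : Fin k → FreeGroup (Fin k)))) ∧
      ∀ H : Subgroup (FreeGroup (Fin k)), H ≠ ⊤ →
        δ * (m : ℝ) ≤ (Nat.card {i : Fin m // A i ∉ H} : ℝ) := by
    intro k
    by_cases hk : 1 ≤ k
    · obtain ⟨ι, i1, i2, v, h1, h2, h3⟩ := hC k hk
      let f : Fin (Fintype.card ι) ≃ ι := (Fintype.equivFin ι).symm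
      refine ⟨Fintype.card ι, fun i => ((v (f i)).map FreeGroup.of).prod, fun _ =>
        ⟨Fintype.card_pos, h1, fun i => (norm_prod_le _).trans (h2 _), ?_, ?_⟩⟩
      · intro i
        refine Submonoid.list_prod_mem _ fun x hx => ?_
        obtain ⟨a, _, rfl⟩ := List.mem_map.1 hx
        exact Submonoid.subset_closure ⟨a, rfl⟩
      · intro H hH
        have h4 : ∃ a : Fin k, FreeGroup.of a ∉ H := by
          by_contra hcon
          push Not at hcon
          apply hH
          rw [eq_top_iff, ← FreeGroup.closure_range_of, Subgroup.closure_le]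
          rintro _ ⟨a, rfl⟩
          exact hcon a
        have h5 := h3 _ (sat_subgroup H) (by
          have h6 : 1 ≤ act (fun w : List (Fin k) => (w.map FreeGroup.of).prod ∈ H)
              (fun a : Fin k => [a]) := by
            rw [act_eq_cnt, cnt_pos]
            obtain ⟨a, ha⟩ := h4
            exact ⟨a, by simpa using ha⟩
          exact_mod_cast h6)
        refine h5.trans (le_of_eq ?_)
        classical
        rw [act_eq_cnt, cnt_eq, ← Fintype.card_subtype]
        norm_cast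
        rw [← Nat.card_eq_fintype_card]
        refine Nat.card_congr ?_
        exact (f.subtypeEquiv fun i => Iff.rfl).symm
    · exact ⟨0, fun i => i.elim0, fun h => absurd h hk⟩
  choose n A hA using key
  exact ⟨C, n, A, hA⟩

end Pool.Agent.Results.MP_6f9718_al.LinearUniversalCodes
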